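import Mathlib

/-!
# Tilings of the unit 3-cube by `n` nearly equal cubes of at most three sizes
-/

set_option autoImplicit false

open Filter Topology

namespace Pool.Agent.Results.MP_695dce_co.ThreeSizes

/-- The closed solid cube with lowest corner `a` and side length `s`, parallel to the axes. -/
def cube (a : Fin 3 → ℝ) (s : ℝ) : Set (Fin 3 → ℝ) := Set.Icc a (fun i => a i + s)

/-- A tiling of the unit cube `[0,1]³` with exactly `n` closed solid cubes. -/
structure CubeTiling (n : ℕ) where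
  /-- the lowest corners of the cubes -/
  corner : Fin n → (Fin 3 → ℝ)
  /-- the side lengths of the cubes -/
  side : Fin n → ℝ
  side_pos : ∀ i, 0 < side i
  disjoint : ∀ i j, i ≠ j →
    Disjoint (interior (cube (corner i) (side i))) (interior (cube (corner j) (side j)))
  cover : ⋃ i, cube (corner i) (side i) = Set.Icc 0 1

/-- The number of distinct side lengths of a tiling. -/
noncomputable def CubeTiling.sizes {n : ℕ} (T : CubeTiling n) : ℕ := (Set.range T.side).ncard

/-- The ratio of the largest side length to the smallest side length of a tiling. -/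
noncomputable def CubeTiling.ratio {n : ℕ} (T : CubeTiling n) : ℝ :=
  (⨆ i, T.side i) / (⨅ i, T.side i)

/-- `k` sizes suffice with ratio tending to `1`: for every `n ≥ n₀` there is a tiling of the unit
cube with exactly `n` cubes of at most `k` distinct side lengths, and the ratio of the largest to
the smallest side length tends to `1` as `n` tends to infinity. -/
def SizesSuffice (k : ℕ) : Prop :=
  ∃ (n₀ : ℕ) (T : (n : ℕ) → CubeTiling (n₀ + n)), (∀ n, (T n).sizes ≤ k) ∧
    Tendsto (fun n => (T n).ratio) atTop (𝓝 1)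

/-! ### Arithmetic -/

theorem coprime_diff (p : ℕ) :
    Nat.Coprime (3 * p ^ 2 + 3 * p + 1) (6 * p ^ 2 + 12 * p + 8) := by
  have h1 : 6 * p ^ 2 + 12 * p + 8 = 6 * (p + 1) + 2 * (3 * p ^ 2 + 3 * p + 1) := by ring
  rw [h1, Nat.coprime_add_mul_right_right]
  have h2 : 3 * p ^ 2 + 3 * p + 1 = 1 + (3 * p) * (p + 1) := by ring
  have h3 : Nat.Coprime (3 * p ^ 2 + 3 * p + 1) (p + 1) := by
    rw [h2, Nat.coprime_add_mul_right_left]
    exact Nat.coprime_one_left _
  have h4 : Nat.Coprime (3 * p ^ 2 + 3 * p + 1) 3 := by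
    have : 3 * p ^ 2 + 3 * p + 1 = 1 + (p ^ 2 + p) * 3 := by ring
    rw [this, Nat.coprime_add_mul_right_left]
    exact Nat.coprime_one_left _
  have h5 : Nat.Coprime (3 * p ^ 2 + 3 * p + 1) 2 := by
    obtain ⟨m, hm⟩ := Nat.even_mul_succ_self p
    have : 3 * p ^ 2 + 3 * p + 1 = 1 + (3 * m) * 2 := by nlinarith
    rw [this, Nat.coprime_add_mul_right_left]
    exact Nat.coprime_one_left _
  have h6 : (6 : ℕ) = 2 * 3 := rfl
  rw [h6]
  exact (h5.mul_right h4).mul_right h3

/-- The representation of the large numbers. -/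
theorem exists_rep (p : ℕ) (hp : 1 ≤ p) : ∃ n₀ : ℕ, ∀ n, n₀ ≤ n → ∃ M b c : ℕ, 1 ≤ M ∧
    b + c ≤ M ^ 3 ∧ n = (M ^ 3 - (b + c)) * p ^ 3 + b * (p + 1) ^ 3 + c * (p + 2) ^ 3 := by
  set A := 3 * p ^ 2 + 3 * p + 1 with hA
  set B := 6 * p ^ 2 + 12 * p + 8 with hB
  set M₀ := 7 * p + B with hM₀
  refine ⟨p ^ 3 * M₀ ^ 3 + A * B, fun n hn => ?_⟩
  set P : ℕ → Prop := fun M => p ^ 3 * M ^ 3 + A * B ≤ n with hP
  have hp3 : 1 ≤ p ^ 3 := Nat.one_le_pow _ _ hp
  have hM₀n : M₀ ≤ n := by
    have h1 : M₀ ≤ M₀ ^ 3 := Nat.le_self_pow (by norm_num) _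
    have h2 : M₀ ^ 3 ≤ p ^ 3 * M₀ ^ 3 := Nat.le_mul_of_pos_left _ hp3
    omega
  set M := Nat.findGreatest P n with hM
  have hMM₀ : M₀ ≤ M := Nat.le_findGreatest hM₀n hn
  have hMP : P M := Nat.findGreatest_spec (P := P) hM₀n hn
  have hM1 : ¬ P (M + 1) := by
    intro h
    have hle : M + 1 ≤ n := by
      have h1 : M + 1 ≤ (M + 1) ^ 3 := Nat.le_self_pow (by norm_num) _
      have h2 : (M + 1) ^ 3 ≤ p ^ 3 * (M + 1) ^ 3 := Nat.le_mul_of_pos_left _ hp3
      have h3 : p ^ 3 * (M + 1) ^ 3 + A * B ≤ n := h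
      omega
    have := Nat.le_findGreatest hle h
    omega
  simp only [hP, not_le] at hMP hM1
  obtain ⟨r, hr⟩ := Nat.exists_eq_add_of_le hMP
  obtain ⟨b, c, hbc⟩ := Nat.exists_add_mul_eq_of_gcd_dvd_of_mul_pred_le A B (A * B + r)
    (by rw [Nat.Coprime.gcd_eq_one (coprime_diff p)]; exact one_dvd _)
    (by
      have h1 : A.pred ≤ A := Nat.pred_le _
      have h2 : B.pred ≤ B := Nat.pred_le _
      have := Nat.mul_le_mul h1 h2
      omega)
  have hAB : A ≤ B := by rw [hA, hB]; nlinarith
  have hApos : 0 < A := by omega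
  have hsmall : A * (b + c) ≤ A * M ^ 3 := by
    have h1 : A * (b + c) ≤ A * B + r := by
      rw [← hbc]
      nlinarith
    have h2 : A * B + r < p ^ 3 * (3 * M ^ 2 + 3 * M + 1) + A * B := by
      have : p ^ 3 * (M + 1) ^ 3 = p ^ 3 * M ^ 3 + p ^ 3 * (3 * M ^ 2 + 3 * M + 1) := by ring
      omega
    have h3 : p ^ 3 * (3 * M ^ 2 + 3 * M + 1) + A * B ≤ A * M ^ 3 := by
      have hM1' : 1 ≤ M := by omega
      have e1 : 3 * M ^ 2 + 3 * M + 1 ≤ 7 * M ^ 2 := by nlinarith
      have e2 : p ^ 3 * (3 * M ^ 2 + 3 * M + 1) ≤ p ^ 3 * (7 * M ^ 2) :=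
        Nat.mul_le_mul_left _ e1
      have e3 : p ^ 2 ≤ A := by rw [hA]; nlinarith
      have e4 : p ^ 3 * (7 * M ^ 2) ≤ A * (7 * p * M ^ 2) := by
        calc p ^ 3 * (7 * M ^ 2) = p ^ 2 * (7 * p * M ^ 2) := by ring
          _ ≤ A * (7 * p * M ^ 2) := Nat.mul_le_mul_right _ e3
      have e5 : A * B ≤ A * (B * M ^ 2) :=
        Nat.mul_le_mul_left _ (Nat.le_mul_of_pos_right _ (by positivity))
      have e6 : 7 * p * M ^ 2 + B * M ^ 2 ≤ M ^ 3 := by
        calc 7 * p * M ^ 2 + B * M ^ 2 = M₀ * M ^ 2 := by rw [hM₀]; ring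
          _ ≤ M * M ^ 2 := Nat.mul_le_mul_right _ hMM₀
          _ = M ^ 3 := by ring
      calc p ^ 3 * (3 * M ^ 2 + 3 * M + 1) + A * B ≤ A * (7 * p * M ^ 2) + A * (B * M ^ 2) := by
            omega
        _ = A * (7 * p * M ^ 2 + B * M ^ 2) := by ring
        _ ≤ A * M ^ 3 := Nat.mul_le_mul_left _ e6
    omega
  have hbcM : b + c ≤ M ^ 3 := Nat.le_of_mul_le_mul_left hsmall hApos
  refine ⟨M, b, c, by omega, hbcM, ?_⟩
  obtain ⟨k, hk⟩ := Nat.exists_eq_add_of_le hbcM
  have h1 : M ^ 3 - (b + c) = k := by omega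
  rw [h1, hr, hk]
  have hbc' : b * A + c * B = A * B + r := hbc
  have e1 : b * (p + 1) ^ 3 = b * p ^ 3 + b * A := by rw [hA]; ring
  have e2 : c * (p + 2) ^ 3 = c * p ^ 3 + c * B := by rw [hB]; ring
  rw [e1, e2]
  have : p ^ 3 * (b + c + k) = k * p ^ 3 + b * p ^ 3 + c * p ^ 3 := by ring
  rw [this]
  omega

/-! ### The tilings by blocks -/

/-- If two sets are separated by a coordinate hyperplane then their interiors are disjoint. -/
theorem disjoint_of_sep (S T : Set (Fin 3 → ℝ)) (i : Fin 3) (t : ℝ)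
    (hS : ∀ x ∈ S, x i ≤ t) (hT : ∀ x ∈ T, t ≤ x i) : Disjoint (interior S) (interior T) := by
  have h1 : interior S ⊆ {x | x i < t} := by
    have : S ⊆ (fun x : Fin 3 → ℝ => x i) ⁻¹' Set.Iic t := hS
    refine (interior_mono this).trans ?_
    rw [← (isOpenMap_eval i).preimage_interior_eq_interior_preimage (continuous_apply i),
      interior_Iic]
    exact subset_rfl
  have h2 : interior T ⊆ {x | t < x i} := by
    have : T ⊆ (fun x : Fin 3 → ℝ => x i) ⁻¹' Set.Ici t := hT
    refine (interior_mono this).trans ?_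
    rw [← (isOpenMap_eval i).preimage_interior_eq_interior_preimage (continuous_apply i),
      interior_Ici]
    exact subset_rfl
  rw [Set.disjoint_left]
  intro x hx hx'
  have a1 : x i < t := h1 hx
  have a2 : t < x i := h2 hx'
  exact lt_asymm a1 a2

/-- A point of the interval `[a, a + s]` lies in one of its `k` equal parts. -/
theorem exists_part (a s : ℝ) (hs : 0 < s) (k : ℕ) (hk : 0 < k) (x : ℝ) (h1 : a ≤ x)
    (h2 : x ≤ a + s) : ∃ j : Fin k, a + j * (s / k) ≤ x ∧ x ≤ a + j * (s / k) + s / k := by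
  have hk' : (0 : ℝ) < k := by exact_mod_cast hk
  rcases eq_or_lt_of_le h2 with h2 | h2
  · refine ⟨⟨k - 1, by omega⟩, ?_, ?_⟩
    · have : (((k - 1 : ℕ) : ℝ)) = k - 1 := by
        rw [Nat.cast_sub hk]
        simp
      simp only [this]
      have : (k - 1) * (s / k) = s - s / k := by field_simp
      rw [this, h2]
      have : 0 < s / k := by positivity
      linarith
    · have : (((k - 1 : ℕ) : ℝ)) = k - 1 := by
        rw [Nat.cast_sub hk]
        simp
      simp only [this]
      have : (k - 1) * (s / k) = s - s / k := by field_simp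
      rw [this, h2]
      linarith
  · set y := (x - a) * k / s with hy
    have hy0 : 0 ≤ y := by
      have : 0 ≤ x - a := by linarith
      positivity
    have hyk : y < k := by
      rw [hy, div_lt_iff₀ hs]
      have : x - a < s := by linarith
      nlinarith
    have hfl : ⌊y⌋₊ < k := (Nat.floor_lt hy0).2 hyk
    have hxy : x = a + y * (s / k) := by
      rw [hy]
      field_simp
      ring
    have hsk : 0 < s / k := by positivity
    refine ⟨⟨⌊y⌋₊, hfl⟩, ?_, ?_⟩
    · have := Nat.floor_le hy0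
      have := mul_le_mul_of_nonneg_right this hsk.le
      simp only
      linarith
    · have := (Nat.lt_floor_add_one y).le
      have := mul_le_mul_of_nonneg_right this hsk.le
      simp only
      linarith

/-- Different parts of an interval are separated. -/
theorem part_sep (a s : ℝ) (hs : 0 < s) (k : ℕ) (j j' : ℕ) (h : j < j') :
    a + j * (s / k) + s / k ≤ a + j' * (s / k) := by
  have h' : (j : ℝ) + 1 ≤ j' := by exact_mod_cast h
  have hsk : 0 ≤ s / k := by positivity
  have := mul_le_mul_of_nonneg_right h' hsk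
  linarith

/-- The index type of the cubes: `f b ^ 3` cubes in the block `b`. -/
abbrev Idx (M : ℕ) (f : (Fin 3 → Fin M) → ℕ) : Type := Σ b : Fin 3 → Fin M, Fin 3 → Fin (f b)

/-- The lowest corner of the block `b`. -/
noncomputable def blockCorner (M : ℕ) (b : Fin 3 → Fin M) : Fin 3 → ℝ :=
  fun i => 0 + (b i : ℕ) * (1 / M)

/-- The lowest corner of a small cube. -/
noncomputable def smallCorner (M : ℕ) (f : (Fin 3 → Fin M) → ℕ) (x : Idx M f) : Fin 3 → ℝ :=
  fun i => blockCorner M x.1 i + (x.2 i : ℕ) * ((1 / M) / f x.1)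

theorem mem_cube {a : Fin 3 → ℝ} {s : ℝ} {x : Fin 3 → ℝ} :
    x ∈ cube a s ↔ ∀ i, a i ≤ x i ∧ x i ≤ a i + s := by
  constructor
  · rintro ⟨h1, h2⟩ i
    exact ⟨h1 i, h2 i⟩
  · intro h
    exact ⟨fun i => (h i).1, fun i => (h i).2⟩

theorem small_sub_block {M : ℕ} (hM : 0 < M) {f : (Fin 3 → Fin M) → ℕ} (hf : ∀ b, 0 < f b)
    (x : Idx M f) : cube (smallCorner M f x) ((1 / M) / f x.1) ⊆
      cube (blockCorner M x.1) (1 / M) := by
  intro y hy
  rw [mem_cube] at hy ⊢
  intro i
  have hM' : (0 : ℝ) < M := by exact_mod_cast hM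
  have hf' : (0 : ℝ) < f x.1 := by exact_mod_cast hf x.1
  have hs : (0 : ℝ) < (1 / M) / f x.1 := by positivity
  have hlt : ((x.2 i : ℕ) : ℝ) + 1 ≤ f x.1 := by exact_mod_cast (x.2 i).2
  have h1 := mul_le_mul_of_nonneg_right hlt hs.le
  have h2 : (f x.1 : ℝ) * ((1 / M) / f x.1) = 1 / M := by field_simp
  have h3 : 0 ≤ ((x.2 i : ℕ) : ℝ) * ((1 / M) / f x.1) := by positivity
  obtain ⟨h4, h5⟩ := hy i
  simp only [smallCorner] at h4 h5
  constructor <;> linarith

theorem exists_tiling (M : ℕ) (hM : 0 < M) (f : (Fin 3 → Fin M) → ℕ) (hf : ∀ b, 0 < f b) (n : ℕ)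
    (hn : n = ∑ b, f b ^ 3) :
    ∃ T : CubeTiling n, ∀ i, ∃ b, T.side i = (1 / M) / f b := by
  have hcard : Fintype.card (Idx M f) = n := by
    rw [hn]
    simp [Idx, Fintype.card_sigma]
  let e : Fin n ≃ Idx M f := (Fintype.equivFinOfCardEq hcard).symm
  have hM' : (0 : ℝ) < M := by exact_mod_cast hM
  refine ⟨{
    corner := fun i => smallCorner M f (e i)
    side := fun i => (1 / M) / f (e i).1
    side_pos := fun i => by
      have hf' : (0 : ℝ) < f (e i).1 := by exact_mod_cast hf (e i).1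
      positivity
    disjoint := ?_
    cover := ?_ }, fun i => ⟨(e i).1, rfl⟩⟩
  · intro i j hij
    have hne : e i ≠ e j := fun h => hij (e.injective h)
    generalize e i = x at hne
    generalize e j = y at hne
    have hf' : ∀ b, (0 : ℝ) < f b := fun b => by exact_mod_cast hf b
    by_cases hb : x.1 = y.1
    · obtain ⟨b, c⟩ := x
      obtain ⟨b', c'⟩ := y
      simp only at hb
      subst hb
      have hc : c ≠ c' := fun h => hne (by rw [h])
      obtain ⟨i, hi⟩ := Function.ne_iff.1 hc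
      have hi' : (c i : ℕ) ≠ c' i := fun h => hi (Fin.ext h)
      rcases lt_or_gt_of_ne hi' with h | h
      · have hsep := part_sep (blockCorner M b i) (1 / M) (by positivity) (f b) _ _ h
        apply disjoint_of_sep _ _ i (blockCorner M b i + (c' i : ℕ) * ((1 / M) / f b))
        · intro z hz
          exact ((mem_cube.1 hz) i).2.trans hsep
        · intro z hz
          exact ((mem_cube.1 hz) i).1
      · have hsep := part_sep (blockCorner M b i) (1 / M) (by positivity) (f b) _ _ h
        apply Disjoint.symm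
        apply disjoint_of_sep _ _ i (blockCorner M b i + (c i : ℕ) * ((1 / M) / f b))
        · intro z hz
          exact ((mem_cube.1 hz) i).2.trans hsep
        · intro z hz
          exact ((mem_cube.1 hz) i).1
    · obtain ⟨i, hi⟩ := Function.ne_iff.1 hb
      have hi' : (x.1 i : ℕ) ≠ y.1 i := fun h => hi (Fin.ext h)
      have hx := small_sub_block hM hf x
      have hy := small_sub_block hM hf y
      rcases lt_or_gt_of_ne hi' with h | h
      · have hsep := part_sep 0 1 one_pos M _ _ h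
        apply disjoint_of_sep _ _ i (0 + (y.1 i : ℕ) * (1 / M))
        · intro z hz
          exact ((mem_cube.1 (hx hz)) i).2.trans hsep
        · intro z hz
          exact ((mem_cube.1 (hy hz)) i).1
      · have hsep := part_sep 0 1 one_pos M _ _ h
        apply Disjoint.symm
        apply disjoint_of_sep _ _ i (0 + (x.1 i : ℕ) * (1 / M))
        · intro z hz
          exact ((mem_cube.1 (hy hz)) i).2.trans hsep
        · intro z hz
          exact ((mem_cube.1 (hx hz)) i).1
  · ext z
    simp only [Set.mem_iUnion]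
    constructor
    · rintro ⟨i, hi⟩
      have h := small_sub_block hM hf (e i) hi
      rw [mem_cube] at h
      have key : ∀ j, 0 ≤ z j ∧ z j ≤ 1 := by
        intro j
        obtain ⟨h1, h2⟩ := h j
        simp only [blockCorner] at h1 h2
        have hlt : (((e i).1 j : ℕ) : ℝ) + 1 ≤ M := by exact_mod_cast ((e i).1 j).2
        have h3 := mul_le_mul_of_nonneg_right hlt (by positivity : (0 : ℝ) ≤ 1 / M)
        have h4 : (M : ℝ) * (1 / M) = 1 := by field_simp
        have h5 : 0 ≤ (((e i).1 j : ℕ) : ℝ) * (1 / M) := by positivity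
        constructor <;> linarith
      exact ⟨fun j => (key j).1, fun j => (key j).2⟩
    · rintro ⟨h0, h1⟩
      have hb : ∀ j : Fin 3, ∃ b : Fin M, 0 + (b : ℕ) * ((1 : ℝ) / M) ≤ z j ∧
          z j ≤ 0 + (b : ℕ) * ((1 : ℝ) / M) + 1 / M := by
        intro j
        exact exists_part 0 1 one_pos M hM (z j) (h0 j) (by simpa using h1 j)
      choose b hb1 hb2 using hb
      have hc : ∀ j : Fin 3, ∃ c : Fin (f b),
          blockCorner M b j + (c : ℕ) * ((1 : ℝ) / M / f b) ≤ z j ∧
          z j ≤ blockCorner M b j + (c : ℕ) * ((1 : ℝ) / M / f b) + 1 / M / f b := by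
        intro j
        exact exists_part (blockCorner M b j) (1 / M) (by positivity) (f b) (hf b) (z j) (hb1 j)
          (hb2 j)
      choose c hc1 hc2 using hc
      refine ⟨e.symm ⟨b, c⟩, ?_⟩
      rw [mem_cube]
      simp only [Equiv.apply_symm_apply]
      exact fun j => ⟨hc1 j, hc2 j⟩

/-- For every `p ≥ 1` and all large `n` there is a tiling with `n` cubes of at most three sizes and
with ratio at most `(p + 2) / p`. -/
theorem exists_good (p : ℕ) (hp : 1 ≤ p) : ∃ n₀ : ℕ, ∀ n, n₀ ≤ n →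
    ∃ T : CubeTiling n, T.sizes ≤ 3 ∧ 1 ≤ T.ratio ∧ T.ratio ≤ 1 + 2 / p := by
  classical
  obtain ⟨n₀, h⟩ := exists_rep p hp
  refine ⟨max n₀ 1, fun n hn => ?_⟩
  obtain ⟨M, b, c, hM, hbc, hn'⟩ := h n ((le_max_left _ _).trans hn)
  have hn1 : 1 ≤ n := (le_max_right _ _).trans hn
  have hcard : Fintype.card (Fin 3 → Fin M) = M ^ 3 := by simp
  let e : (Fin 3 → Fin M) ≃ Fin (M ^ 3) := Fintype.equivFinOfCardEq hcard
  let g : ℕ → ℕ := fun i => if i < b then p + 1 else if i < b + c then p + 2 else p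
  have hg : ∀ i, g i = p ∨ g i = p + 1 ∨ g i = p + 2 := by
    intro i
    simp only [g]
    split_ifs <;> simp
  have hsum : n = ∑ x, (g (e x)) ^ 3 := by
    have h1 : ∑ x, (g (e x)) ^ 3 = ∑ i : Fin (M ^ 3), (g i) ^ 3 :=
      Equiv.sum_comp e (fun i : Fin (M ^ 3) => (g i) ^ 3)
    rw [h1, Fin.sum_univ_eq_sum_range (fun i => (g i) ^ 3)]
    obtain ⟨k, hk⟩ := Nat.exists_eq_add_of_le hbc
    rw [hk, Finset.sum_range_add, Finset.sum_range_add]
    have s1 : ∑ i ∈ Finset.range b, (g i) ^ 3 = b * (p + 1) ^ 3 := by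
      rw [Finset.sum_congr rfl (g := fun _ => (p + 1) ^ 3)]
      · simp
      · intro i hi
        simp [g, Finset.mem_range.1 hi]
    have s2 : ∑ i ∈ Finset.range c, (g (b + i)) ^ 3 = c * (p + 2) ^ 3 := by
      rw [Finset.sum_congr rfl (g := fun _ => (p + 2) ^ 3)]
      · simp
      · intro i hi
        have := Finset.mem_range.1 hi
        simp [g, this]
    have s3 : ∑ i ∈ Finset.range k, (g (b + c + i)) ^ 3 = k * p ^ 3 := by
      rw [Finset.sum_congr rfl (g := fun _ => p ^ 3)]
      · simp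
      · intro i _
        have h1 : ¬ (b + c + i < b) := by omega
        have h2 : ¬ (b + c + i < b + c) := by omega
        simp only [g, if_neg h1, if_neg h2]
    rw [s1, s2, s3, hn']
    have : M ^ 3 - (b + c) = k := by omega
    rw [this]
    ring
  obtain ⟨T, hT⟩ := exists_tiling M hM (fun x => g (e x))
    (fun x => by rcases hg (e x) with h | h | h <;> omega) n hsum
  have hM' : (0 : ℝ) < M := by exact_mod_cast hM
  have hp' : (0 : ℝ) < p := by exact_mod_cast hp
  have hT' : ∀ i, T.side i = (1 / M) / p ∨ T.side i = (1 / M) / (p + 1) ∨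
      T.side i = (1 / M) / (p + 2) := by
    intro i
    obtain ⟨x, hx⟩ := hT i
    rw [hx]
    rcases hg (e x) with h | h | h
    · left
      rw [h]
    · right; left
      rw [h]
      push_cast
      rfl
    · right; right
      rw [h]
      push_cast
      rfl
  have hne : Nonempty (Fin n) := ⟨⟨0, hn1⟩⟩
  have hup : ∀ i, T.side i ≤ (1 / M) / p := by
    intro i
    rcases hT' i with h | h | h <;> rw [h]
    · exact div_le_div_of_nonneg_left (by positivity) hp' (by linarith)
    · exact div_le_div_of_nonneg_left (by positivity) hp' (by linarith)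
  have hlo : ∀ i, (1 / M) / (p + 2) ≤ T.side i := by
    intro i
    rcases hT' i with h | h | h <;> rw [h]
    · exact div_le_div_of_nonneg_left (by positivity) hp' (by linarith)
    · exact div_le_div_of_nonneg_left (by positivity) (by positivity) (by linarith)
  have hbdd : BddAbove (Set.range T.side) := ⟨_, by rintro _ ⟨i, rfl⟩; exact hup i⟩
  have hbdd' : BddBelow (Set.range T.side) := ⟨_, by rintro _ ⟨i, rfl⟩; exact hlo i⟩
  have hinf : (1 / M) / (p + 2) ≤ ⨅ i, T.side i := le_ciInf hlo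
  have hinfpos : (0 : ℝ) < ⨅ i, T.side i := lt_of_lt_of_le (by positivity) hinf
  have hsup : ⨆ i, T.side i ≤ (1 / M) / p := ciSup_le hup
  refine ⟨T, ?_, ?_, ?_⟩
  · have hsub : Set.range T.side ⊆
        (({(1 / M : ℝ) / p, (1 / M : ℝ) / (p + 1), (1 / M : ℝ) / (p + 2)} : Finset ℝ) : Set ℝ) := by
      rintro _ ⟨i, rfl⟩
      simpa using hT' i
    refine (Set.ncard_le_ncard hsub (Finset.finite_toSet _)).trans ?_
    rw [Set.ncard_coe_finset]
    exact Finset.card_le_three
  · rw [CubeTiling.ratio, le_div_iff₀ hinfpos, one_mul]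
    exact (ciInf_le hbdd' hne.some).trans (le_ciSup hbdd hne.some)
  · rw [CubeTiling.ratio, div_le_iff₀ hinfpos]
    refine hsup.trans ?_
    have h1 : (1 + 2 / p) * ((1 / M) / (p + 2)) = (1 / M : ℝ) / p := by
      field_simp
    rw [← h1]
    exact mul_le_mul_of_nonneg_left hinf (by positivity)

/-- **Three sizes suffice with ratio tending to one.** For every sufficiently large `n` the unit
cube has a tiling with exactly `n` cubes of at most three distinct side lengths such that the ratio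
of the largest to the smallest side length tends to `1` as `n` tends to infinity. -/
theorem result : SizesSuffice 3 := by
  classical
  choose! N hN using exists_good
  set P : ℕ → ℕ → Prop := fun n p => 1 ≤ p ∧ N p ≤ n with hP
  set q : ℕ → ℕ := fun n => Nat.findGreatest (P n) n with hq
  have hbig : ∀ p, 1 ≤ p → ∀ n, max p (N p) ≤ n → p ≤ q n := by
    intro p hp n hn
    exact Nat.le_findGreatest ((le_max_left _ _).trans hn) ⟨hp, (le_max_right _ _).trans hn⟩
  have hspec : ∀ n, max 1 (N 1) ≤ n → P n (q n) := by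
    intro n hn
    exact Nat.findGreatest_spec (P := P n) ((le_max_left _ _).trans hn)
      ⟨le_rfl, (le_max_right _ _).trans hn⟩
  set n₀ := max 1 (N 1) with hn₀
  have hT : ∀ n, ∃ T : CubeTiling (n₀ + n), T.sizes ≤ 3 ∧ 1 ≤ T.ratio ∧
      T.ratio ≤ 1 + 2 / (q (n₀ + n) : ℕ) := by
    intro n
    obtain ⟨h1, h2⟩ := hspec (n₀ + n) (Nat.le_add_right _ _)
    exact hN _ h1 _ h2
  choose T hT1 hT2 hT3 using hT
  refine ⟨n₀, T, hT1, ?_⟩
  rw [Metric.tendsto_atTop]
  intro ε hε
  obtain ⟨p, hp⟩ := exists_nat_gt (2 / ε)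
  have hp0 : (0 : ℝ) < p := lt_trans (by positivity) hp
  have hp1 : 1 ≤ p := by exact_mod_cast hp0
  refine ⟨max p (N p), fun n hn => ?_⟩
  have h1 := hbig p hp1 (n₀ + n) (by omega)
  have h2 : (2 : ℝ) / (q (n₀ + n) : ℕ) ≤ 2 / p := by
    apply div_le_div_of_nonneg_left (by norm_num) hp0
    exact_mod_cast h1
  have h3 : (2 : ℝ) / p < ε := by
    rw [div_lt_iff₀ hε] at hp
    rw [div_lt_iff₀ hp0]
    linarith
  rw [Real.dist_eq, abs_lt]
  have h4 := hT2 n
  have h5 := hT3 n
  constructor <;> linarith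

end Pool.Agent.Results.MP_695dce_co.ThreeSizes
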